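import Pool.Agent.R302.TreeE

namespace Pool.Agent.Results.MP_98688b_an.NotBounded

open Pool.Agent.R302.SemiAmenDef Pool.Agent.R302.SemiBddDef

universe w

/-- There is a (commutative) Banach algebra that is approximately semi-amenable but not boundedly
approximately semi-amenable. -/
theorem _root_.Pool.Agent.Results.MP_98688b_an.NotBounded.result :
    ∃ (A : Type) (_ : NonUnitalNormedRing A) (_ : NormedSpace ℂ A) (_ : CompleteSpace A)
      (_ : IsScalarTower ℂ A A) (_ : SMulCommClass ℂ A A),
      (∀ a b : A, a * b = b * a) ∧ IsApproxSemiAmenable.{0, w} A ∧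
        ¬ IsBddApproxSemiAmenable.{0, 0} A :=
  ⟨Pool.Agent.R302.TreeC.AA, inferInstance, inferInstance, inferInstance, inferInstance,
    inferInstance, fun a b => mul_comm a b,
    Pool.Agent.R302.SemiC.new_of_old Pool.Agent.R302.TreeE.asa, Pool.Agent.R302.TreeE.not_bdd⟩

end Pool.Agent.Results.MP_98688b_an.NotBounded
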